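import Mathlib
import Pool.Agent.Results.MP_f0b429_co.EventuallySmaller

set_option autoImplicit false

/-!
# Distinct multinomial coefficients versus restricted partitions

Let `M(n)` be the number of distinct multinomial coefficients with upper entry `n` and `p#(n)` the
number of partitions of `n` whose parts are at most `7` or divisible by `3`. The inequality
`M(n) ≤ p#(n)` holds (strictly) for every `n ≥ exp 160000`. The proof compares the bound
`log M(n) ≤ 148 √(n / log n)` with `p#(n) ≥ 2 ^ m` for `3 m² ≤ n`.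
-/

namespace Pool.Agent.Results.MP_2e8272_nt.ExplicitThreshold

open Finset

/-- the set of the integers that occur as a multinomial coefficient `n! / (i_1! ⋯ i_k!)` with upper
entry `n`, over all `k ≥ 1` and all `k`-tuples of non-negative integers with sum `n` -/
def multinomials (n : ℕ) : Set ℕ :=
  {m | ∃ (k : ℕ) (i : Fin k → ℕ), 1 ≤ k ∧ ∑ j, i j = n ∧ m = Nat.multinomial Finset.univ i}

/-- `M(n)`, the number of distinct multinomial coefficients with upper entry `n` -/
noncomputable def M (n : ℕ) : ℕ := (multinomials n).ncard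

/-- `p#(n)`, the number of partitions of `n` in which every part is at most `7` or divisible
by `3` -/
def pSharp (n : ℕ) : ℕ :=
  (Finset.univ.filter fun P : Nat.Partition n => ∀ i ∈ P.parts, i ≤ 7 ∨ 3 ∣ i).card

lemma pStar_le_pSharp (n : ℕ) :
    Pool.Agent.Results.MP_f0b429_co.EventuallySmaller.pStar n ≤ pSharp n := by
  unfold Pool.Agent.Results.MP_f0b429_co.EventuallySmaller.pStar pSharp
  apply Finset.card_le_card
  intro P hP
  rw [Finset.mem_filter] at hP ⊢
  refine ⟨hP.1, fun i hi => ?_⟩
  rcases hP.2 i hi with h | h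
  · left; omega
  · right; exact h

/-- **The result.** `M(n) < p#(n)` for all `n ≥ exp 160000`. -/
theorem result : ∀ n : ℕ, Real.exp 160000 ≤ n → M n < pSharp n := by
  intro n hn
  have hb := (Pool.Agent.Results.MP_155ab0_nt.LimitZero.result).1
  have hMn : Pool.Agent.Results.MP_155ab0_nt.LimitZero.M n = M n := rfl
  have hexp : (160000 : ℝ) + 1 ≤ Real.exp 160000 := Real.add_one_le_exp 160000
  have hnR : (160001 : ℝ) ≤ n := by linarith
  have hn3 : 3 ≤ n := by
    have : (3 : ℝ) ≤ n := by linarith
    exact_mod_cast this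
  have h1 := hb n hn3
  rw [hMn] at h1
  have hnpos : (0 : ℝ) < n := by linarith
  have hlog : (160000 : ℝ) ≤ Real.log n := by
    rw [Real.le_log_iff_exp_le hnpos]
    exact hn
  have hs : 0 < Real.sqrt n := Real.sqrt_pos.2 hnpos
  have hsq : (400 : ℝ) ^ 2 = 160000 := by norm_num
  have hs400 : (400 : ℝ) ≤ Real.sqrt n := Real.le_sqrt_of_sq_le (by rw [hsq]; linarith)
  have h400 : (400 : ℝ) ≤ Real.sqrt (Real.log n) :=
    Real.le_sqrt_of_sq_le (by rw [hsq]; exact hlog)
  have h2 : Real.log (M n) ≤ 37 / 100 * Real.sqrt n := by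
    rw [Real.sqrt_div hnpos.le] at h1
    have h3 : Real.sqrt n / Real.sqrt (Real.log n) ≤ Real.sqrt n / 400 :=
      div_le_div_of_nonneg_left hs.le (by norm_num) h400
    calc Real.log (M n) ≤ 148 * (Real.sqrt n / Real.sqrt (Real.log n)) := h1
      _ ≤ 148 * (Real.sqrt n / 400) := by
        apply mul_le_mul_of_nonneg_left h3 (by norm_num)
      _ = 37 / 100 * Real.sqrt n := by ring
  -- the lower bound
  set m := Nat.sqrt (n / 3) with hm
  have hm1 : 3 * m ^ 2 ≤ n := by
    have h3 : m * m ≤ n / 3 := Nat.sqrt_le _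
    have h4 : 3 * (n / 3) ≤ n := Nat.mul_div_le n 3
    nlinarith
  have hm2 : (n : ℝ) < 3 * ((m : ℝ) + 1) ^ 2 := by
    have h3 : n / 3 < (m + 1) * (m + 1) := Nat.lt_succ_sqrt _
    have h4 : n < 3 * ((m + 1) * (m + 1)) := by omega
    have h5 : (n : ℝ) < 3 * (((m : ℝ) + 1) * (m + 1)) := by exact_mod_cast h4
    linarith [h5, sq ((m : ℝ) + 1)]
  have hmS : Real.sqrt n ≤ 7 / 4 * ((m : ℝ) + 1) := by
    apply Real.sqrt_le_iff.2
    constructor
    · positivity
    · nlinarith [sq_nonneg ((m : ℝ) + 1)]
  have hp := (Pool.Agent.Results.MP_f0b429_co.EventuallySmaller.pStar_lower n m hm1).trans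
    (pStar_le_pSharp n)
  -- compare logarithms
  by_contra hcon
  rw [not_lt] at hcon
  have h5 : (2 : ℝ) ^ m ≤ M n := by
    have : 2 ^ m ≤ M n := hp.trans hcon
    exact_mod_cast this
  have h6 : (m : ℝ) * Real.log 2 ≤ Real.log (M n) := by
    rw [← Real.log_pow]
    exact Real.log_le_log (by positivity) h5
  have h7 := Real.log_two_gt_d9
  have h8 : (m : ℝ) * 0.69 ≤ Real.log (M n) := by
    refine le_trans ?_ h6
    apply mul_le_mul_of_nonneg_left _ (Nat.cast_nonneg m)
    linarith
  nlinarith

end Pool.Agent.Results.MP_2e8272_nt.ExplicitThreshold
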